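import Pool.Agent.Run7.h994.MC.Cor

/-!
# Simultaneous prime values of quadratic polynomials whose constant terms have bounded differences

For every `k` and `ε > 0` there is `K` such that for all integers `a > 0`, `b` and every admissible set of `K` FIXED integers
`h_1, ..., h_K` there is `κ > 0` with the following property for all large `N` and all `A` with `N^(1/2 + ε) ≤ A ≤ N`: there are `k`
indices `i ∈ I` such that for at least `κ A` of the constant terms `c ≤ A` all the `k` triples `(a, b, c + h_i)`, `i ∈ I`, are admissible, the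
product of the `k` polynomials `a t² + b t + c + h_i`, `i ∈ I`, has no fixed divisor, and they take SIMULTANEOUS prime values for at least
`κ N / (log N)^K` of the `t ≤ N`.

Method. The Maynard-Tao theorem (in the form with the right order of magnitude, project HR of the starting tree) in an
arbitrary set `T` of relative density `κ → 0` in which the integers and the primes are equidistributed in residue classes up to a
small power level; here `T` is the set of the integers `v` for which the fractional part of `(v / a)^(1/2) - b / (2 a)` is in a short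
interval of length about `A / N`: exponential sums over primes in residue classes with the phases `h (p / a)^(1/2)` on average over `h`
(Vaughan's identity, double large sieve, van der Corput) with a power saving. The upper bound sieve for the values of the `K`
polynomials, for every single `c`, and the second moment of the singular series spread the simultaneous primes over a positive
proportion of the `c`.
-/

set_option autoImplicit false

namespace Pool.Agent.Results.MP_a17b09_nt.BoundedDifferences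

open Finset Filter Topology

/-- The polynomial. -/
def f (a b c : ℤ) (t : ℕ) : ℤ := a * (t : ℤ) ^ 2 + b * t + c

/-- The triple `(a, b, c)`, `a > 0`, is admissible. -/
def Admissible (a b c : ℤ) : Prop :=
  Int.gcd (Int.gcd a b : ℤ) c = 1 ∧ ¬ (Even (a + b) ∧ Even c) ∧ ¬ IsSquare (b ^ 2 - 4 * a * c)

/-- The product of the polynomials `f a b (c + h_i)`, `i ∈ I`, has no fixed prime divisor. -/
def NoFixedDivisor {K : ℕ} (a b : ℤ) (h : Fin K → ℕ) (I : Finset (Fin K)) (c : ℕ) : Prop :=
  ∀ p : ℕ, p.Prime → ∃ t : ℕ, ∀ i ∈ I, ¬ (p : ℤ) ∣ f a b (c + h i) t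

open Classical in
/-- The `t ≤ N` for which all `f a b (c + h_i) t`, `i ∈ I`, are primes. -/
noncomputable def common {K : ℕ} (a b : ℤ) (h : Fin K → ℕ) (I : Finset (Fin K)) (N c : ℕ) : Finset ℕ :=
  (Icc 1 N).filter (fun t => ∀ i ∈ I, (f a b (c + h i) t).toNat.Prime)

/-- The quadratic polynomial without constant term. -/
noncomputable def FF (a b : ℤ) : Polynomial ℤ :=
  Polynomial.C a * Polynomial.X ^ 2 + Polynomial.C b * Polynomial.X + Polynomial.C 0

lemma eval_FF (a b x : ℤ) : (FF a b).eval x = a * x ^ 2 + b * x := by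
  unfold FF
  simp

lemma adm_of {a b : ℤ} (ha : 0 < a) {c : ℤ} (hc : b ^ 2 < c) (h2 : ∃ t : ℕ, ¬ (2 : ℤ) ∣ f a b c t)
    (hp : ∀ p : ℕ, p.Prime → ∃ t : ℕ, ¬ (p : ℤ) ∣ f a b c t) : Admissible a b c := by
  refine ⟨?_, ?_, ?_⟩
  · by_contra hg
    obtain ⟨p, hpp, hpd⟩ := Nat.exists_prime_and_dvd hg
    obtain ⟨t, ht⟩ := hp p hpp
    have h1 : (p : ℤ) ∣ ((Int.gcd (Int.gcd a b : ℤ) c : ℕ) : ℤ) := Int.natCast_dvd_natCast.2 hpd
    have h3 : (p : ℤ) ∣ c := h1.trans (Int.gcd_dvd_right _ _)
    have h4 : (p : ℤ) ∣ ((Int.gcd a b : ℕ) : ℤ) := h1.trans (Int.gcd_dvd_left _ _)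
    have h5 : (p : ℤ) ∣ a := h4.trans (Int.gcd_dvd_left _ _)
    have h6 : (p : ℤ) ∣ b := h4.trans (Int.gcd_dvd_right _ _)
    apply ht
    unfold f
    exact dvd_add (dvd_add (h5.mul_right _) (h6.mul_right _)) h3
  · rintro ⟨h3, h4⟩
    obtain ⟨t, ht⟩ := h2
    apply ht
    rw [← even_iff_two_dvd]
    unfold f
    rcases Int.even_or_odd (t : ℤ) with h5 | h5
    · have h6 : Even (a * (t : ℤ) ^ 2) := (h5.pow_of_ne_zero two_ne_zero).mul_left _
      exact (h6.add (h5.mul_left _)).add h4
    · have h6 : a * (t : ℤ) ^ 2 + b * t + c = (a + b) * t ^ 2 - b * (t * (t - 1)) + c := by ring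
      rw [h6]
      have h7 : Even ((t : ℤ) * (t - 1)) := by
        have : Even ((t : ℤ) - 1) := h5.sub_odd odd_one
        exact this.mul_left _
      exact (((h3.mul_right _).sub (h7.mul_left _)).add h4)
  · rintro ⟨r, hr⟩
    have h1 : b ^ 2 - 4 * a * c < 0 := by nlinarith [sq_nonneg b]
    nlinarith [mul_self_nonneg r]

theorem result (k : ℕ) (ε : ℝ) (hε : 0 < ε) : ∃ K : ℕ, ∀ a b : ℤ, 0 < a → ∀ h : Fin K → ℕ, Function.Injective h →
    (∀ p : ℕ, p.Prime → ∃ x : ℕ, ∀ i, ¬ p ∣ x + h i) →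
    ∃ κ : ℝ, 0 < κ ∧ ∃ N₀ : ℕ, ∀ N : ℕ, N₀ ≤ N → ∀ A : ℕ, (N : ℝ) ^ (1 / 2 + ε) ≤ A → A ≤ N →
      ∃ I : Finset (Fin K), #I = k ∧
        ∃ G ⊆ Icc 1 A, κ * A ≤ (#G : ℝ) ∧ ∀ c ∈ G, (∀ i ∈ I, Admissible a b (c + h i)) ∧ NoFixedDivisor a b h I c ∧
          κ * (N / Real.log N ^ K) ≤ (#(common a b h I N c) : ℝ) := by
  classical
  obtain ⟨K, hK, H⟩ := Run7.h994.MC.mainI 2 le_rfl k ε hε
  refine ⟨K, fun a b ha h hinj hadm => ?_⟩
  obtain ⟨c₁, ρ, hc₁, hρ, N₁, H⟩ := H (FF a b) (Polynomial.natDegree_quadratic ha.ne')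
    (by
      have : (FF a b).leadingCoeff = a := Polynomial.leadingCoeff_quadratic ha.ne'
      rw [this]
      exact ha) h hinj hadm
  have hlim : Tendsto (fun N : ℕ => (N : ℝ) ^ (1 / 2 : ℝ)) atTop atTop :=
    (tendsto_rpow_atTop (by norm_num)).comp tendsto_natCast_atTop_atTop
  obtain ⟨B, hB⟩ : ∃ B : ℕ, B = (b ^ 2).toNat := ⟨_, rfl⟩
  have hBb : (B : ℤ) = b ^ 2 := by rw [hB]; exact Int.toNat_of_nonneg (sq_nonneg b)
  obtain ⟨N₂, hN₂⟩ := eventually_atTop.1 (hlim.eventually_ge_atTop (2 * (B : ℝ) / c₁))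
  refine ⟨c₁ / 2, by positivity, N₁ + N₂ + 10, fun N hN A hA1 hA2 => ?_⟩
  have hNR : (10 : ℝ) ≤ N := by exact_mod_cast (by omega : 10 ≤ N)
  have hN1 : (1 : ℝ) ≤ N := by linarith
  have hL0 : 0 < Real.log N := Real.log_pos (by linarith)
  obtain ⟨I, hI, h1⟩ := H N (by omega) A (by
    have e : (1 - Run7.h462.BPG.lam 2) * ((2 : ℕ) : ℝ) - 1 + ε = 1 / 2 + ε := by
      unfold Run7.h462.BPG.lam
      norm_num
    rw [e]
    exact hA1) (by
    norm_num
    exact_mod_cast hA2)
  obtain ⟨G, hG⟩ : ∃ G : Finset ℕ, G = (Icc 1 A).filter (fun c => Run7.h994.MC.Sch (FF a b) h I c ∧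
    c₁ * (N / Real.log N ^ K) ≤ (#((Icc 1 N).filter (fun n => Run7.h994.MC.Sim (FF a b) h I ρ N n c)) : ℝ)) := ⟨_, rfl⟩
  have h1' : c₁ * A ≤ (#G : ℝ) := by
    rw [hG]
    exact h1
  refine ⟨I, hI, G \ Icc 1 B, ?_, ?_, ?_⟩
  · refine sdiff_subset.trans ?_
    rw [hG]
    exact filter_subset _ _
  · have h2 := le_card_sdiff (Icc 1 B) G
    rw [Nat.card_Icc, Nat.add_sub_cancel] at h2
    have h3 : (#G : ℝ) - B ≤ #(G \ Icc 1 B) := by
      rw [sub_le_iff_le_add]
      have h4 : #G ≤ #(G \ Icc 1 B) + B := by omega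
      exact_mod_cast h4
    have h5 : 2 * (B : ℝ) / c₁ ≤ A := by
      refine (hN₂ N (by omega)).trans (le_trans ?_ hA1)
      exact Real.rpow_le_rpow_of_exponent_le hN1 (by linarith)
    rw [div_le_iff₀ hc₁] at h5
    linarith
  · intro c hc
    rw [Finset.mem_sdiff, hG, mem_filter, mem_Icc, mem_Icc] at hc
    obtain ⟨⟨hcA, hS, hcount⟩, hcB⟩ := hc
    obtain ⟨hS1, hS2⟩ := hS
    have hval : ∀ (i : Fin K) (t : ℕ), (FF a b).eval (t : ℤ) + c + h i = f a b (c + h i) t := by
      intro i t
      rw [eval_FF]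
      unfold f
      ring
    have hnf : NoFixedDivisor a b h I c := by
      intro p hp
      obtain ⟨x, hx⟩ := hS2 p hp
      refine ⟨x, fun i hi hd => hx i hi ?_⟩
      rw [hval i x]
      exact hd
    refine ⟨fun i hi => ?_, hnf, ?_⟩
    · have hcb : b ^ 2 < (c : ℤ) + h i := by
        have : (B : ℤ) < c := by
          have : B < c := by
            by_contra hcon
            exact hcB ⟨hcA.1, by omega⟩
          exact_mod_cast this
        have h0 : (0 : ℤ) ≤ h i := Int.natCast_nonneg _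
        linarith
      apply adm_of ha hcb
      · obtain ⟨t, ht⟩ := hnf 2 Nat.prime_two
        exact ⟨t, ht i hi⟩
      · intro p hp
        obtain ⟨t, ht⟩ := hnf p hp
        exact ⟨t, ht i hi⟩
    · have h6 : (#((Icc 1 N).filter (fun n => Run7.h994.MC.Sim (FF a b) h I ρ N n c)) : ℝ) ≤ #(common a b h I N c) := by
        apply Nat.cast_le.2
        apply card_le_card
        intro t ht
        rw [mem_filter] at ht
        unfold common
        rw [mem_filter]
        refine ⟨ht.1, fun i hi => ?_⟩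
        have h7 := ht.2.2 i hi
        rw [hval i t] at h7
        exact h7
      refine le_trans ?_ (hcount.trans h6)
      apply mul_le_mul_of_nonneg_right (by linarith)
      positivity

end Pool.Agent.Results.MP_a17b09_nt.BoundedDifferences
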