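import Pool.Agent.Run7.h462.QA.Quad

/-!
# The lower bound of Conjecture F for a positive proportion of the constant terms `c ≤ N ^ (1/2 + ε)`

Fix integers `a > 0` and `b`. For `η, ε > 0`, all large `N` and all `A` with `N ^ (1/2 + ε) ≤ A ≤ N`: for a positive
proportion of the integers `1 ≤ c ≤ A` the triple `(a, b, c)` is admissible, the product `C(a, b, c)` converges, is bounded from
below, and the number of the primes `a n² + b n + c`, `n ≤ N`, is at least `(1 - η) C(a, b, c) Li(N)`. Among the integers up to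
`a N²` the values `a n² + b n + c`, `n ≤ N`, `c ≤ N ^ (1/2 + ε)`, are a set of density about `N ^ (-1/2 + ε)`.

Method. `p = a n² + b n + c` with `c ≤ A` means that the fractional part of `(p / a) ^ (1/2) - b / (2 a)` is in an interval of length
about `A / (2 a n)`. Exponential sums over primes with the phases `h (p / a) ^ (1/2)` on average over `h`: Vaughan's identity, the
double large sieve for the bilinear sums (spacing of the points `h² k`), the second derivative test for the linear sums. This gives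
the mean value of the number of the primes. The mean value of the singular series is at most `1 + o(1)`; the upper bound sieve for
every single `c` with the truncated singular series as the density, and the second moment of the latter, show that the primes cannot
be concentrated on few `c`. For almost all `c ≤ A` the truncated singular series is close to `2 C(a, b, c)` (`Pool/Agent/N792`).
-/

set_option autoImplicit false

namespace Pool.Agent.Results.MP_a17b09_nt.PositiveProportionAllQuadratics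

open Finset Filter Topology

/-- The polynomial. -/
def f (a b c : ℤ) (t : ℕ) : ℤ := a * (t : ℤ) ^ 2 + b * t + c

/-- The triple `(a, b, c)`, `a > 0`, is admissible. -/
def Admissible (a b c : ℤ) : Prop :=
  Int.gcd (Int.gcd a b : ℤ) c = 1 ∧ ¬ (Even (a + b) ∧ Even c) ∧ ¬ IsSquare (b ^ 2 - 4 * a * c)

/-- The products which define `C(a, b, c)`, over the primes `p ≤ z` (`jacobiSym Δ p` is the Legendre symbol). -/
noncomputable def partialC (a b c : ℤ) (z : ℕ) : ℝ :=
  (if Odd (a + b) then 1 / 2 else 1) *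
    (∏ p ∈ (Icc 3 z).filter (fun p : ℕ => p.Prime ∧ (p : ℤ) ∣ a ∧ (p : ℤ) ∣ b), (p : ℝ) / (p - 1)) *
    ∏ p ∈ (Icc 3 z).filter (fun p : ℕ => p.Prime ∧ ¬ (p : ℤ) ∣ a),
      (1 - (jacobiSym (b ^ 2 - 4 * a * c) p : ℝ) / (p - 1))

/-- `K = C(a, b, c)`: the products over the primes, in increasing order, converge to `K`. -/
def IsC (a b c : ℤ) (K : ℝ) : Prop := Tendsto (partialC a b c) atTop (𝓝 K)

/-- `π_f(y)`. -/
def count (a b c : ℤ) (y : ℕ) : ℕ := ((Icc 1 y).filter (fun t : ℕ => (f a b c t).toNat.Prime)).card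

/-- `Li(y)`. -/
noncomputable def Li (y : ℕ) : ℝ := ∫ t in (2 : ℝ)..(y : ℝ), 1 / Real.log t

/-- The conclusion for one constant term `c`. -/
def Good (a b : ℤ) (η κ : ℝ) (N : ℕ) (c : ℤ) : Prop :=
  Admissible a b c ∧ ∃ K : ℝ, IsC a b c K ∧ κ ≤ K ∧ (1 - η) * (K * Li N) ≤ count a b c N

lemma adm_of {a b c : ℤ} (h : Pool.Agent.N792.Admissible a b c) : Admissible a b c := by
  obtain ⟨_, h2, h3, h4⟩ := h
  refine ⟨?_, ?_, h4⟩
  · have h5 : IsUnit ((Int.gcd (Int.gcd a b : ℤ) c : ℕ) : ℤ) := by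
      apply h2
      · exact (Int.gcd_dvd_left _ _).trans (Int.gcd_dvd_left _ _)
      · exact (Int.gcd_dvd_left _ _).trans (Int.gcd_dvd_right _ _)
      · exact Int.gcd_dvd_right _ _
    have h6 := Int.isUnit_iff_natAbs_eq.1 h5
    simpa using h6
  · rintro ⟨h5, h6⟩
    exact h3 ⟨h5.two_dvd, h6.two_dvd⟩

lemma partialC_eq (a b c : ℤ) (ha : 0 < a) (z : ℕ) (hz : a ≤ z) :
    partialC a b c z = 1 / 2 * (Pool.Agent.N792.eps a b * Pool.Agent.N792.partialC a b c z *
      Pool.Agent.N792.gcdProd a b) := by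
  have h1 : (Icc 3 z).filter (fun p : ℕ => p.Prime ∧ (p : ℤ) ∣ a ∧ (p : ℤ) ∣ b) =
      (Int.gcd a b).primeFactors.filter (fun p => 2 < p) := by
    ext p
    rw [mem_filter, mem_filter, mem_Icc, Nat.mem_primeFactors]
    have hg : Int.gcd a b ≠ 0 := by
      intro h
      rw [Int.gcd_eq_zero_iff] at h
      omega
    constructor
    · rintro ⟨⟨h1, h2⟩, h3, h4, h5⟩
      refine ⟨⟨h3, ?_, hg⟩, by omega⟩
      exact Int.natCast_dvd_natCast.1 (Int.dvd_coe_gcd h4 h5)
    · rintro ⟨⟨h3, h4, _⟩, h5⟩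
      have h6 : (p : ℤ) ∣ a := (Int.natCast_dvd_natCast.2 h4).trans (Int.gcd_dvd_left _ _)
      have h7 : (p : ℤ) ∣ b := (Int.natCast_dvd_natCast.2 h4).trans (Int.gcd_dvd_right _ _)
      have h8 := Int.le_of_dvd ha h6
      exact ⟨⟨by omega, by omega⟩, h3, h6, h7⟩
  have h2 : (if Odd (a + b) then (1 / 2 : ℝ) else 1) = 1 / 2 * Pool.Agent.N792.eps a b := by
    unfold Pool.Agent.N792.eps
    by_cases h : Odd (a + b)
    · have h3 : ¬ (2 : ℤ) ∣ a + b := by
        intro h4
        rw [← even_iff_two_dvd] at h4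
        exact (Int.not_even_iff_odd.2 h) h4
      rw [if_pos h, if_neg h3]
      norm_num
    · have h3 : (2 : ℤ) ∣ a + b := by
        rw [← even_iff_two_dvd]
        exact Int.not_odd_iff_even.1 h
      rw [if_neg h, if_pos h3]
      norm_num
  unfold partialC
  rw [h1, h2]
  unfold Pool.Agent.N792.partialC Pool.Agent.N792.gcdProd
  ring

open Classical in
theorem result (a b : ℤ) (ha : 0 < a) (η : ℝ) (hη : 0 < η) :
    ∃ κ : ℝ, 0 < κ ∧ ∀ ε : ℝ, 0 < ε → ∃ N₀ : ℕ, ∀ N : ℕ, N₀ ≤ N → ∀ A : ℕ,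
      (N : ℝ) ^ (1 / 2 + ε) ≤ A → A ≤ N →
      κ * A ≤ ((Icc 1 A).filter (fun c : ℕ => Good a b η κ N c)).card := by
  obtain ⟨κ, hκ, h⟩ := Run7.h462.QA.quad a ha b (min η (1 / 2)) (lt_min hη (by norm_num)) (min_le_right _ _)
  refine ⟨κ, hκ, fun ε hε => ?_⟩
  obtain ⟨N₀, h⟩ := h ε hε
  refine ⟨N₀ + 2, fun N hN A hA1 hA2 => (h N (by omega) A hA1 hA2).trans ?_⟩
  norm_cast
  apply card_le_card
  intro c hc
  rw [mem_filter] at hc ⊢
  obtain ⟨h1, S, h2, h3, h4⟩ := hc.2
  refine ⟨hc.1, adm_of h1, 1 / 2 * (Pool.Agent.N792.eps a b * S * Pool.Agent.N792.gcdProd a b), ?_, h2, ?_⟩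
  · have h5 : Tendsto (fun z => 1 / 2 * (Pool.Agent.N792.eps a b * Pool.Agent.N792.partialC a b c z *
      Pool.Agent.N792.gcdProd a b)) atTop (𝓝 (1 / 2 * (Pool.Agent.N792.eps a b * S * Pool.Agent.N792.gcdProd a b))) :=
      ((h3.const_mul _).mul_const _).const_mul _
    refine h5.congr' ?_
    filter_upwards [eventually_ge_atTop a.toNat] with z hz
    exact (partialC_eq a b c ha z (by omega)).symm
  · have h5 := Run7.h462.QA.int_nonneg (show 2 ≤ N by omega)
    have h6 : (1 - η) * (1 / 2 * (Pool.Agent.N792.eps a b * S * Pool.Agent.N792.gcdProd a b) * Li N) ≤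
        (1 - min η (1 / 2)) * (1 / 2 * (Pool.Agent.N792.eps a b * S * Pool.Agent.N792.gcdProd a b) * Li N) := by
      apply mul_le_mul_of_nonneg_right
      · linarith [min_le_left η (1 / 2)]
      · exact mul_nonneg (hκ.le.trans h2) h5
    refine h6.trans (h4.trans (le_of_eq ?_))
    unfold Run7.h462.BPD.P count f
    congr 2
    apply filter_congr
    intro n _
    rw [Run7.h462.QA.eval_FF]

end Pool.Agent.Results.MP_a17b09_nt.PositiveProportionAllQuadratics
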