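import Pool.Agent.Run7.h536.QC5

set_option autoImplicit false

/-!
# Prime values of quadratic (and higher) polynomials at integers with restricted digits, uniformly in all coefficients

Fix a base `b`. Let `S` be the set of the `t < b ^ k` whose digits satisfy arbitrary restrictions (the `i`-th digit belongs
to `D i`, at least two digits are allowed at every place); `S` may have as few as `2 ^ k` elements, a power
`b ^ k` to an arbitrarily small exponent. For quadratic polynomials `f_j(t) = a_j t² + b_j t + c_j` (or polynomials of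
arbitrary fixed degrees `d_j ≥ 2`), `j < r`, the coefficients of which may depend on `k` and be as large as the size
`N_j = b ^ (d_j k)` of the values allows, for almost all vectors of the constant terms, `|c_j| ≤ B N_j`, the sum of
`∏ Λ(f_j(t))` over every initial segment of `S`, and with arbitrary weights, is the one predicted by the model of the
integers without prime factors up to a power of `k`: the only obstructions to primes come from small prime factors.

Proof. The values of a polynomial of degree `d ≥ 2` at the integers with restricted digits have nearly minimal additive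
energy of some order depending only on `b` and `d`, uniformly in the polynomial (`Run7.h536.PW1` to `PW3`: a Weyl
inequality by differences of blocks of digits, and moments); duality with the bilinear estimate for `Λ` minus its model
(`TH212.EH.base`, starting files) gives the first moment over one constant term with arbitrary coefficients (`QC1`);
telescoping (`QC2`), several weights and initial segments (`QC3`, `QC4`). The starting files contain the case of fixed
polynomials of degree one and two without weights (`TH872.Sq`).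
-/

namespace Pool.Agent.Results.MP_a17b09_nt.RestrictedDigitsUniformSystems

open Finset Polynomial

/-- The integers `t < b ^ k` whose `i`-th digit in base `b` belongs to `D i`, for all `i < k`. -/
def restricted (b : ℕ) (D : ℕ → Finset ℕ) (k : ℕ) : Finset ℕ :=
  (range (b ^ k)).filter (fun t : ℕ => ∀ i < k, t / b ^ i % b ∈ D i)

/-- `L` lies between the logarithm on the primes and the von Mangoldt function (for example it is one of them). -/
def PrimeLike (L : ℕ → ℝ) : Prop :=
  ∀ n : ℕ, (if n.Prime then Real.log n else 0) ≤ L n ∧ L n ≤ ArithmeticFunction.vonMangoldt n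

/-- The extension of `L` to the integers (zero for `n ≤ 0`). -/
noncomputable def ext (L : ℕ → ℝ) (n : ℤ) : ℝ := if 1 ≤ n then L n.toNat else 0

/-- The product of `1 - 1 / p` over the primes `p ≤ z`. -/
noncomputable def mertens (z : ℕ) : ℝ := ∏ p ∈ (Icc 1 z).filter Nat.Prime, (1 - 1 / (p : ℝ))

open Classical in
/-- The model: `1 / mertens z` if `n ≥ 1` has no prime factor `p ≤ z`, and zero otherwise. -/
noncomputable def model (z : ℕ) (n : ℤ) : ℝ :=
  if 1 ≤ n ∧ ∀ p : ℕ, p.Prime → p ≤ z → ¬ (p : ℤ) ∣ n then (mertens z)⁻¹ else 0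

lemma model_eq (z : ℕ) (n : ℤ) : Pool.Agent.H373R2.T7.lamzI z n = model z n := by
  classical
  have hV : Pool.Agent.H373R2.T7.Vz z = mertens z := by
    unfold Pool.Agent.H373R2.T7.Vz mertens Pool.Agent.H373R2.T7.pz
    rfl
  unfold Pool.Agent.H373R2.T7.lamzI Pool.Agent.H373R2.T7.lamz model
  rw [hV]
  by_cases h : 1 ≤ n
  · rw [if_pos h]
    have e : (∀ p ∈ Pool.Agent.H373R2.T7.pz z, ¬ p ∣ n.toNat) ↔ (1 ≤ n ∧ ∀ p : ℕ, p.Prime → p ≤ z → ¬ (p : ℤ) ∣ n) := by
      have hn : ((n.toNat : ℕ) : ℤ) = n := Int.toNat_of_nonneg (by omega)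
      constructor
      · intro h1
        refine ⟨h, fun p hp hpz hd => h1 p (Pool.Agent.H373R2.T7.mem_pz.2 ⟨hpz, hp⟩) ?_⟩
        rw [← hn] at hd
        exact_mod_cast hd
      · rintro ⟨_, h1⟩ p hp hd
        rw [Pool.Agent.H373R2.T7.mem_pz] at hp
        apply h1 p hp.2 hp.1
        rw [← hn]
        exact_mod_cast hd
    simp only [e]
  · rw [if_neg h, if_neg (fun h1 => h h1.1)]

open Classical in
/-- The number of the vectors of integers `c_j`, `|c_j| ≤ B N_j`, for which for some `M` the sums over the `t ∈ S`,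
`t < M`, of `w(t) ∏_j L(f_j(t) + c_j)` and of `w(t) ∏_j model(f_j(t) + c_j)` differ by more than `δ`. -/
noncomputable def exceptions {r : ℕ} (B : ℕ) (N : Fin r → ℕ) (S : Finset ℕ) (f : Fin r → ℤ[X]) (L : ℕ → ℝ) (w : ℕ → ℝ)
    (z : ℕ) (δ : ℝ) : ℕ :=
  ((Fintype.piFinset (fun j => Icc (-(B * (N j : ℤ))) (B * (N j : ℤ)))).filter (fun c : Fin r → ℤ => ∃ M : ℕ, δ <
    |∑ t ∈ S.filter (fun t => t < M), w t * ∏ j, ext L ((f j).eval (t : ℤ) + c j) -
      ∑ t ∈ S.filter (fun t => t < M), w t * ∏ j, model z ((f j).eval (t : ℤ) + c j)|)).card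

/-- Fix the base `b ≥ 2`, the degrees `d_j ≥ 2` (`d_j = 2` in the problem), `j < r`, and `B`, `T`, `U`. There is a `B₀`
such that for every `E` and all large `k`: let `D i`, `i < k`, be ARBITRARY sets of at least two digits, `S` the set of
the `t < b ^ k` with the `i`-th digit in `D i`, `f_j` ARBITRARY polynomials with integer coefficients (which may depend
on `k`) of degree `d_j` with `|f_j(t)| ≤ B N_j` on `S`, `N_j = b ^ (d_j k)`, and `w` ARBITRARY weights with
`|w(t)| ≤ k ^ T` (for example the indicator of any subset of `S`). Let `k ^ B₀ ≤ z ≤ k ^ E`, and let `L` be the logarithm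
on the primes, or the von Mangoldt function. Then for all but at most `k ^ (-U) ∏ N_j` of the vectors of constant terms
`c_j`, `|c_j| ≤ B N_j`: for ALL `M` the sum of `w(t) ∏_j L(f_j(t) + c_j)` over the `t ∈ S`, `t < M`, differs from the sum
of `w(t) ∏_j model z (f_j(t) + c_j)` by at most `|S| / k ^ U`. -/
theorem result (b : ℕ) (hb : 2 ≤ b) (r : ℕ) (d : Fin r → ℕ) (hd : ∀ j, 2 ≤ d j) (B T U : ℕ) :
    ∃ B₀ : ℕ, ∀ E : ℕ, ∃ k₀ : ℕ, ∀ k : ℕ, k₀ ≤ k →
    ∀ D : ℕ → Finset ℕ, (∀ i < k, D i ⊆ range b ∧ 2 ≤ (D i).card) →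
    ∀ f : Fin r → ℤ[X], (∀ j, (f j).natDegree = d j) →
    (∀ j, ∀ t ∈ restricted b D k, |(f j).eval (t : ℤ)| ≤ B * ((b ^ (d j * k) : ℕ) : ℤ)) →
    ∀ w : ℕ → ℝ, (∀ t, |w t| ≤ (k : ℝ) ^ T) → ∀ L : ℕ → ℝ, PrimeLike L →
    ∀ z : ℕ, (k : ℝ) ^ B₀ ≤ z → (z : ℝ) ≤ (k : ℝ) ^ E →
    (exceptions B (fun j => b ^ (d j * k)) (restricted b D k) f L w z ((restricted b D k).card / (k : ℝ) ^ U) : ℝ) ≤
      (∏ j, ((b ^ (d j * k) : ℕ) : ℝ)) / (k : ℝ) ^ U := by
  obtain ⟨B0, h0⟩ := Pool.Agent.Run7.h536.QC.digits_sys b hb r d hd B T U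
  refine ⟨B0, fun E => ?_⟩
  obtain ⟨k0, h1⟩ := h0 E
  refine ⟨k0, fun k hk D hD f hf hfb w hw L hL z hz1 hz2 => ?_⟩
  classical
  refine le_trans (le_of_eq ?_) (h1 k hk D hD f hf hfb z hz1 hz2 L hL w hw)
  unfold exceptions
  congr 2
  apply filter_congr
  intro c _
  apply exists_congr
  intro M
  have e : ∑ t ∈ (restricted b D k).filter (fun t => t < M), w t * ∏ j, ext L ((f j).eval (t : ℤ) + c j) -
      ∑ t ∈ (restricted b D k).filter (fun t => t < M), w t * ∏ j, model z ((f j).eval (t : ℤ) + c j) =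
      ∑ m ∈ (Pool.Agent.TH872.Sq.SD b D k).filter (fun m => m < M), w m *
        (∏ j, Pool.Agent.Run7.h536.QC.LI L ((f j).eval (m : ℤ) + c j) - ∏ j, Pool.Agent.H373R2.T7.lamzI z ((f j).eval (m : ℤ) + c j)) := by
    simp only [model_eq]
    rw [← sum_sub_distrib]
    apply sum_congr rfl
    intro t _
    rw [mul_sub]
    rfl
  rw [e]
  rfl

end Pool.Agent.Results.MP_a17b09_nt.RestrictedDigitsUniformSystems
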