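import Pool.Agent.Run7.h385.PT.Fin4

/-!
The formula of Bateman and Horn for the pairs `f(t), f(t + h)`, for 100 percent of the quadratic
polynomials `f`, at the optimal scale.

For almost every `f(t) = a t² + b t + c` with `(a, b, c)` in a box of size `X` and every
`h ≤ (log X)^C`, the number of the `t` in `(m, m + M]` with `|f(t)|` and `|f(t + h)|` both prime is, with
the weight `log² (X t²)`, asymptotic to `C_w(f; h) M`, in every window in which many such `t` are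
expected, with `m + M ≤ N`, `N^10 (log X)^B ≤ X`: arguments up to a power of the height, windows as
short as possible.  With one shift: Conjecture F for `f` itself in every such window.

Method.  (1) The supremum over all frequencies of the exponential sum over primes minus its sieve
model is small in almost all intervals of length `K^(2/3) (log K)^B`.  (2) The four values at
`t + h_1, t + h_2, t' + h_1, t' + h_2` of a quadratic polynomial with three free coefficients are linear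
forms of complexity one, so that the second moment over the polynomials can be computed.  (3) Pure
sieve in classes modulo the product of the primes up to `log log X / 4`; convexity for long windows.
-/

set_option autoImplicit false

namespace Pool.Agent.Results.MP_a17b09_nt.TwinPrimesAlongQuadratics

open Finset

/-- the value at `t` of the polynomial `a x² + b x + c`, `q = (a, b, c)` -/
def val (q : ℤ × ℤ × ℤ) (t : ℕ) : ℤ := q.1 * (t : ℤ) ^ 2 + q.2.1 * t + q.2.2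

/-- the number of the residues `t` modulo `p` such that `p` divides one of the values `f(t + h_i)` -/
def omega {k : ℕ} (q : ℤ × ℤ × ℤ) (h : Fin k → ℕ) (p : ℕ) : ℕ :=
  #((range p).filter (fun t : ℕ => ∃ i, (p : ℤ) ∣ val q (t + h i)))

/-- the constant of Bateman and Horn of the system of the polynomials `f(x + h_i)`, the product
`∏ (1 - omega(p)/p) / (1 - 1/p)^k` taken over the primes `p ≤ w` -/
noncomputable def const {k : ℕ} (q : ℤ × ℤ × ℤ) (h : Fin k → ℕ) (w : ℕ) : ℝ :=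
  ∏ p ∈ (range (w + 1)).filter Nat.Prime, (1 - (omega q h p : ℝ) / p) / (1 - 1 / (p : ℝ)) ^ k

/-- `w(X) = ⌊log log X / 4⌋` -/
noncomputable def w (X : ℕ) : ℕ := ⌊Real.log (Real.log X) / 4⌋₊

/-- the sum of `(log (X (t+1)²))^k` over the `t` in `(m, m + M]` with all `|f(t + h_i)|` prime -/
noncomputable def psi {k : ℕ} (X : ℕ) (q : ℤ × ℤ × ℤ) (h : Fin k → ℕ) (m M : ℕ) : ℝ :=
  ∑ t ∈ (Ioc m (m + M)).filter (fun t : ℕ => ∀ i, (val q (t + h i)).natAbs.Prime), Real.log (X * ((t : ℝ) + 1) ^ 2) ^ k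

/-- the number `const M / (log (X (m+1)²))^k` of the `t` in `(m, m + M]` expected by Bateman and Horn -/
noncomputable def expected {k : ℕ} (X : ℕ) (q : ℤ × ℤ × ℤ) (h : Fin k → ℕ) (m M : ℕ) : ℝ :=
  const q h (w X) * M / Real.log (X * ((m : ℝ) + 1) ^ 2) ^ k

/-- the box of the triples with `A_i ≤ q_i < A_i + Y_i` -/
noncomputable def box (A : ℤ × ℤ × ℤ) (Y : ℕ × ℕ × ℕ) : Finset (ℤ × ℤ × ℤ) :=
  Ico A.1 (A.1 + Y.1) ×ˢ Ico A.2.1 (A.2.1 + Y.2.1) ×ˢ Ico A.2.2 (A.2.2 + Y.2.2)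

/-- the triples in the box for which no prime `p ≤ w(X)` divides all the products of the `f(t + h_i)` -/
noncomputable def adm {k : ℕ} (X : ℕ) (h : Fin k → ℕ) (A : ℤ × ℤ × ℤ) (Y : ℕ × ℕ × ℕ) : Finset (ℤ × ℤ × ℤ) :=
  (box A Y).filter (fun q => 0 < const q h (w X))

/-- the box has its corner in `[-X, X]³` and its sides in `[X / (log X)^C, X]` -/
def Sizes (C X : ℕ) (A : ℤ × ℤ × ℤ) (Y : ℕ × ℕ × ℕ) : Prop :=
  (|(A.1 : ℝ)| ≤ X ∧ |(A.2.1 : ℝ)| ≤ X ∧ |(A.2.2 : ℝ)| ≤ X) ∧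
  ((X : ℝ) / Real.log X ^ C ≤ Y.1 ∧ (X : ℝ) / Real.log X ^ C ≤ Y.2.1 ∧ (X : ℝ) / Real.log X ^ C ≤ Y.2.2) ∧
  ((Y.1 : ℝ) ≤ X ∧ (Y.2.1 : ℝ) ≤ X ∧ (Y.2.2 : ℝ) ≤ X)

/-- For one or two shifts and all `C` there is `B` such that for all `ε > 0` there is `Lam` such that for all
large `X`, all `N` with `N^10 (log X)^B ≤ X`, all boxes as in `Sizes`, all distinct shifts
`h_i ≤ (log X)^C` and all `m`, `M` with `m + M + (log X)^(C+k+5) ≤ N`: for all admissible triples in the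
box but at most `ε` of them, if at least `Lam` of the `t` in the window are expected, then
`psi = (1 + O(ε)) const M`.  At least `Lam` are expected, for all triples with `const > 0`, if
`M ≥ (log X)^(k+1)`.  The admissible triples are a positive proportion of the box. -/
theorem result (k C : ℕ) (hk1 : 1 ≤ k) (hk : k ≤ 2) :
    (∃ B : ℕ, ∀ ε : ℝ, 0 < ε → ∃ Lam : ℝ, ∃ X0 : ℕ, ∀ X : ℕ, X0 ≤ X → ∀ N : ℕ, (N : ℝ) ^ 10 * Real.log X ^ B ≤ X →
      ∀ (A : ℤ × ℤ × ℤ) (Y : ℕ × ℕ × ℕ), Sizes C X A Y →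
      ∀ h : Fin k → ℕ, Function.Injective h → (∀ i, (h i : ℝ) ≤ Real.log X ^ C) →
      ∀ m M : ℕ, (m : ℝ) + M + Real.log X ^ (C + k + 5) ≤ N →
        (#((adm X h A Y).filter (fun q => Lam ≤ expected X q h m M ∧ ε * (const q h (w X) * M) <
          |psi X q h m M - const q h (w X) * M|)) : ℝ) ≤ ε * #(adm X h A Y)) ∧
    (∀ Lam : ℝ, ∃ X0 : ℕ, ∀ X : ℕ, X0 ≤ X → ∀ (q : ℤ × ℤ × ℤ) (h : Fin k → ℕ), 0 < const q h (w X) →
      ∀ m M : ℕ, ((m : ℝ) + 1) ^ 2 ≤ X → Real.log X ^ (k + 1) ≤ M → Lam ≤ expected X q h m M) ∧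
    (∃ c1 : ℝ, 0 < c1 ∧ ∃ X0 : ℕ, ∀ X : ℕ, X0 ≤ X → ∀ (h : Fin k → ℕ) (A : ℤ × ℤ × ℤ) (Y : ℕ × ℕ × ℕ),
      Sizes C X A Y → c1 * #(box A Y) ≤ #(adm X h A Y)) := by
  refine ⟨?_, ?_, ?_⟩
  · obtain ⟨B, hB⟩ := Run7.h385.PT.Fin4.mainq k C hk1 hk
    refine ⟨B, fun ε hε => ?_⟩
    obtain ⟨Lam, X0, h0⟩ := hB ε hε
    exact ⟨Lam, X0, fun X hX N hN A Y hS => h0 X hX N hN A Y hS.1 hS.2.1 hS.2.2⟩
  · exact Run7.h385.PT.Fin4.expq_large k
  · obtain ⟨c1, hc1, X0, h0⟩ := Run7.h385.PT.Fin3.mainq_adm k C (by omega)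
    exact ⟨c1, hc1, X0, fun X hX h A Y hS => h0 X hX h A Y hS.2.1⟩

end Pool.Agent.Results.MP_a17b09_nt.TwinPrimesAlongQuadratics
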